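import Pool.Agent.Gao.Own

set_option autoImplicit false

open Equiv GaoOwn

/-- Gao's conjecture: the Schubert polynomials `S n w` of all symmetric groups exist and are unique,
Gao's numbers `c_w` exist and are unique, and they are nonnegative. -/
theorem Pool.Agent.Results.MP_b139df_co.GaoPositivity.result :
    ∃ (S : (n : ℕ) → Perm (Fin n) → MvPolynomial ℕ ℤ) (c : (m : ℕ) → Perm (Fin m) → ℤ),
      (∀ (n : ℕ) (T : Perm (Fin n) → MvPolynomial ℕ ℤ), IsSchubert n T ↔ T = S n) ∧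
      IsGao S c ∧
      (∀ c' : (m : ℕ) → Perm (Fin m) → ℤ, IsGao S c' →
        ∀ m : ℕ, 1 ≤ m → ∀ w : Perm (Fin m), c' m w = c m w) ∧
      ∀ m : ℕ, 1 ≤ m → ∀ w : Perm (Fin m), 0 ≤ c m w :=
  ⟨sch, cg sch, isSchubert_iff, isGao_cg sch,
    fun c' h' => isGao_unique sch c' (cg sch) h' (isGao_cg sch),
    gao_nonneg (cg sch) (isGao_cg sch)⟩
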